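import Pool.Agent.N746.RK.Main

/-!
# The inequality for `∞` and the zeros of a polynomial
-/

set_option autoImplicit false

namespace Pool.Agent.N746.RK

open NumberField IsDedekindDomain Height Real Polynomial Pool.Agent.N757.RD Pool.Agent.N757.TL

variable {K : Type} [Field K] [NumberField K]

/-- the primes at which `x` meets `∞` or a zero of `P` -/
def J (P : K[X]) (x : K) : Set (HeightOneSpectrum (𝓞 K)) :=
  {v | 1 < FinitePlace.mk v x ∨ FinitePlace.mk v (P.eval x) < 1}

theorem finite_J {P : K[X]} {x : K} (h : P.eval x ≠ 0) : (J P x).Finite :=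
  (finite_gt x).union (finite_lows h)

/-- the inequality with `1 + ε` on the right -/
def V (P : K[X]) : Prop :=
  ∀ ε : ℝ, 0 < ε → ∃ C : ℝ, ∀ x : K, P.eval x ≠ 0 →
    ((P.natDegree : ℝ) - 1) * D x ≤ (1 + ε) * W (J P x) + C

theorem D_add_le (x y : K) : D (x + y) ≤ D x + D y + Real.log 2 * dg K := by
  have h := logHeight₁_add_le x y
  have e := totalWeight_dg (K := K)
  rw [e] at h
  change logHeight₁ (x + y) ≤ logHeight₁ x + logHeight₁ y + _
  linarith

theorem D_eval_le (d : ℕ) : ∀ R : K[X], R.natDegree ≤ d → ∃ C : ℝ, 0 ≤ C ∧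
    ∀ x : K, D (R.eval x) ≤ (d : ℝ) * D x + C := by
  have hd := dg_pos (K := K)
  have hl : 0 ≤ Real.log 2 * dg K := mul_nonneg (Real.log_nonneg (by norm_num)) hd.le
  induction d with
  | zero =>
    intro R hR
    refine ⟨D (R.coeff 0), D_nonneg _, fun x => ?_⟩
    rw [eq_C_of_natDegree_le_zero hR, eval_C, coeff_C_zero]
    simp
  | succ d ih =>
    intro R hR
    obtain ⟨C₁, hC₁, h1⟩ := ih R.divX (by rw [natDegree_divX_eq_natDegree_tsub_one]; omega)
    refine ⟨C₁ + D (R.coeff 0) + Real.log 2 * dg K, ?_, fun x => ?_⟩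
    · have := D_nonneg (R.coeff 0)
      positivity
    · have e : R.eval x = R.divX.eval x * x + R.coeff 0 := by
        conv_lhs => rw [← divX_mul_X_add R]
        simp
      rw [e]
      have h2 := D_add_le (R.divX.eval x * x) (R.coeff 0)
      have h3 : D (R.divX.eval x * x) ≤ D (R.divX.eval x) + D x := logHeight₁_mul_le _ _
      have h4 := h1 x
      push_cast
      linarith

/-- the inequality for a divisor of `P` -/
theorem V_dvd {P Q : K[X]} (hP : P ≠ 0) (hQ : 2 ≤ Q.natDegree) (h : Q ∣ P) (hV : V P) : V Q := by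
  obtain ⟨R, rfl⟩ := h
  have hQ0 : Q ≠ 0 := left_ne_zero_of_mul hP
  have hR0 : R ≠ 0 := right_ne_zero_of_mul hP
  obtain ⟨r, hr⟩ : ∃ r, r = R.natDegree := ⟨_, rfl⟩
  obtain ⟨q, hq⟩ : ∃ q, q = Q.natDegree := ⟨_, rfl⟩
  have hdeg : (Q * R).natDegree = q + r := by rw [natDegree_mul hQ0 hR0, hq, hr]
  have hq2 : (2 : ℝ) ≤ q := by rw [hq]; exact_mod_cast hQ
  have hr0 : (0 : ℝ) ≤ r := Nat.cast_nonneg _
  have hq1 : (0 : ℝ) < (q : ℝ) - 1 := by linarith
  obtain ⟨C₁, hC₁, h1⟩ := D_eval_le r R hr.ge
  -- the zeros of `R`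
  obtain ⟨C₂, hC₂, h2⟩ : ∃ C₂ : ℝ, 0 ≤ C₂ ∧ ∀ x : K, R.eval x = 0 → D x ≤ C₂ := by
    have hfin : {x : K | R.eval x = 0}.Finite := by
      classical
      refine (R.roots.toFinset.finite_toSet).subset fun x hx => ?_
      rw [Finset.mem_coe, Multiset.mem_toFinset, mem_roots hR0]
      exact hx
    obtain ⟨C, hC⟩ := (hfin.image D).bddAbove
    exact ⟨max C 0, le_max_right _ _, fun x hx => (hC ⟨x, hx, rfl⟩).trans (le_max_left _ _)⟩
  unfold V at hV ⊢
  rw [hdeg] at hV
  rw [← hq]
  refine step (h := fun x : K => ((q : ℝ) - 1) * D x) (r := fun x => W (J Q x))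
    (h' := fun x : K => (((q + r : ℕ) : ℝ) - 1) * D x) (r' := fun x => W (J (Q * R) x))
    (N := ((q : ℝ) + r - 1) / ((q : ℝ) - 1)) (C := C₁ + ((q : ℝ) - 1) * C₂)
    (P := fun x : K => Q.eval x ≠ 0) (Q := fun x : K => (Q * R).eval x ≠ 0)
    (fun x => mul_nonneg hq1.le (D_nonneg x)) (fun x => W_nonneg _)
    (by rw [le_div_iff₀ hq1]; linarith) (by positivity) ?_ hV
  intro x hx
  have eN : ((q : ℝ) + r - 1) / ((q : ℝ) - 1) * (((q : ℝ) - 1) * D x) = ((q : ℝ) + r - 1) * D x := by
    field_simp
  have eN1 : (((q : ℝ) + r - 1) / ((q : ℝ) - 1) - 1) * (((q : ℝ) - 1) * D x) = r * D x := by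
    field_simp
    ring
  rw [eN, eN1]
  by_cases hRx : R.eval x = 0
  · left
    have := mul_le_mul_of_nonneg_left (h2 x hRx) hq1.le
    linarith
  right
  refine ⟨x, by rw [eval_mul]; exact mul_ne_zero hx hRx, ?_, ?_⟩
  · push_cast
    have : 0 ≤ C₁ + ((q : ℝ) - 1) * C₂ := by positivity
    linarith
  · have hsub : J (Q * R) x ⊆ J Q x ∪ lows (R.eval x) := by
      intro p hp
      rcases hp with h3 | h3
      · exact Or.inl (Or.inl h3)
      · by_cases h4 : FinitePlace.mk p (Q.eval x) < 1
        · exact Or.inl (Or.inr h4)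
        · right
          change FinitePlace.mk p (R.eval x) < 1
          by_contra hcon
          rw [eval_mul, map_mul] at h3
          have := one_le_mul_of_one_le_of_one_le (not_lt.1 h4) (not_lt.1 hcon)
          linarith
    have f1 := finite_J hx
    have f2 := finite_lows hRx
    have g1 := W_mono hsub (f1.union f2)
    have g2 := W_union f1 f2
    have g3 := W_lows_le hRx
    have g4 := h1 x
    have g5 : 0 ≤ ((q : ℝ) - 1) * C₂ := by positivity
    linarith

/-- translation -/
theorem V_shift {P : K[X]} (hP : 2 ≤ P.natDegree) (c : K) (h : V P) : V (P.comp (X - C c)) := by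
  have hdeg : (P.comp (X - C c)).natDegree = P.natDegree := by
    rw [natDegree_comp, natDegree_X_sub_C, mul_one]
  have hev : ∀ x : K, (P.comp (X - C c)).eval x = P.eval (x - c) := by
    intro x; simp
  have hq1 : (0 : ℝ) < (P.natDegree : ℝ) - 1 := by
    have : (2 : ℝ) ≤ P.natDegree := by exact_mod_cast hP
    linarith
  have hd := dg_pos (K := K)
  have hl : 0 ≤ Real.log 2 * dg K := mul_nonneg (Real.log_nonneg (by norm_num)) hd.le
  have hc := D_nonneg c
  have hfin := finite_gt c
  have hW := W_nonneg {p : HeightOneSpectrum (𝓞 K) | 1 < FinitePlace.mk p c}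
  unfold V at h ⊢
  rw [hdeg]
  refine step (h := fun x : K => ((P.natDegree : ℝ) - 1) * D x)
    (r := fun x => W (J (P.comp (X - C c)) x)) (N := 1)
    (C := ((P.natDegree : ℝ) - 1) * (D c + Real.log 2 * dg K) +
      W {p : HeightOneSpectrum (𝓞 K) | 1 < FinitePlace.mk p c})
    (P := fun x : K => (P.comp (X - C c)).eval x ≠ 0)
    (fun x => mul_nonneg hq1.le (D_nonneg x)) (fun x => W_nonneg _) le_rfl (by positivity) ?_ h
  intro x hx
  right
  refine ⟨x - c, by rwa [hev] at hx, ?_, ?_⟩
  · have h1 := D_add_le (x - c) c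
    rw [sub_add_cancel] at h1
    have h2 : ((P.natDegree : ℝ) - 1) * D x ≤
        ((P.natDegree : ℝ) - 1) * (D (x - c) + D c + Real.log 2 * dg K) :=
      mul_le_mul_of_nonneg_left h1 hq1.le
    linarith
  · have hsub : J P (x - c) ⊆ J (P.comp (X - C c)) x ∪
        {p : HeightOneSpectrum (𝓞 K) | 1 < FinitePlace.mk p c} := by
      intro p hp
      rcases hp with h3 | h3
      · by_cases h4 : 1 < FinitePlace.mk p c
        · exact Or.inr h4
        · left; left
          have h5 := fin_add_le p x (-c)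
          rw [← sub_eq_add_neg, map_neg_eq_map] at h5
          have h6 := not_lt.1 h4
          by_contra hcon
          have h7 := not_lt.1 hcon
          have := h5.trans (max_le h7 h6)
          linarith
      · left; right
        rwa [hev]
    have f1 := finite_J hx
    have g1 := W_mono hsub (f1.union hfin)
    have g2 := W_union f1 hfin
    have e : (1 : ℝ) - 1 = 0 := by norm_num
    rw [e, zero_mul, add_zero]
    have g5 : 0 ≤ ((P.natDegree : ℝ) - 1) * (D c + Real.log 2 * dg K) := by positivity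
    linarith

theorem V_root {n : ℕ} (k : K) : V (X ^ n - C k : K[X]) ↔ RT n k := by
  have hdeg : (X ^ n - C k : K[X]).natDegree = n := natDegree_X_pow_sub_C
  have hne : ∀ x : K, (X ^ n - C k : K[X]).eval x ≠ 0 ↔ x ^ n ≠ k := by
    intro x
    simp only [eval_sub, eval_pow, eval_X, eval_C, ne_eq, sub_eq_zero]
  unfold V RT
  simp only [hne, hdeg]
  have e : ∀ x : K, J (X ^ n - C k : K[X]) x = IR n k x := by
    intro x
    simp only [J, IR, eval_sub, eval_pow, eval_X, eval_C]
  simp only [e]

theorem V_root_shift {n : ℕ} (hn : 2 ≤ n) (k c : K) : V ((X - C c) ^ n - C k : K[X]) ↔ RT n k := by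
  have hdeg : (X ^ n - C k : K[X]).natDegree = n := natDegree_X_pow_sub_C
  rw [← V_root]
  constructor
  · intro h
    have h1 := V_shift (P := ((X - C c) ^ n - C k : K[X])) (c := -c) ?_ h
    · have e : ((X - C c) ^ n - C k : K[X]).comp (X - C (-c)) = X ^ n - C k := by
        simp
      rwa [e] at h1
    · have e : ((X - C c) ^ n - C k : K[X]) = (X ^ n - C k : K[X]).comp (X - C c) := by simp
      rw [e, natDegree_comp, natDegree_X_sub_C, mul_one, hdeg]
      exact hn
  · intro h
    have h1 := V_shift (c := c) (by rw [hdeg]; exact hn) h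
    have e : ((X - C c) ^ n - C k : K[X]) = (X ^ n - C k : K[X]).comp (X - C c) := by simp
    rwa [e]

theorem J_three (x : K) : J (X * (X - 1) : K[X]) x = I x := by
  ext v
  simp only [J, I, Set.mem_ofPred_eq, eval_mul, eval_sub, eval_X, eval_one, map_mul]
  have e1 : FinitePlace.mk v (x - 1) = FinitePlace.mk v (1 - x) := by
    rw [← map_neg_eq_map, neg_sub]
  rw [e1]
  have h0 : 0 ≤ FinitePlace.mk v x := apply_nonneg _ _
  have h1 : 0 ≤ FinitePlace.mk v (1 - x) := apply_nonneg _ _
  constructor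
  · rintro (h | h)
    · exact Or.inl (ne_of_gt h)
    · by_contra hcon
      push Not at hcon
      rw [hcon.1, hcon.2] at h
      norm_num at h
  · intro h
    by_cases hx : 1 < FinitePlace.mk v x
    · exact Or.inl hx
    · right
      have hx' := not_lt.1 hx
      have h2 : FinitePlace.mk v (1 - x) ≤ 1 := by
        have := fin_add_le v 1 (-x)
        rw [← sub_eq_add_neg, map_neg_eq_map, map_one] at this
        exact this.trans (max_le le_rfl hx')
      rcases h with h | h
      · have : FinitePlace.mk v x < 1 := lt_of_le_of_ne hx' h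
        nlinarith
      · have : FinitePlace.mk v (1 - x) < 1 := lt_of_le_of_ne h2 h
        nlinarith

theorem natDegree_three : (X * (X - 1) : K[X]).natDegree = 2 := by
  have e : (X * (X - 1) : K[X]) = X * (X - C 1) := by simp
  rw [e, natDegree_mul X_ne_zero (X_sub_C_ne_zero 1), natDegree_X, natDegree_X_sub_C]

theorem V_three : V (X * (X - 1) : K[X]) ↔ ABC K := by
  have hne : ∀ x : K, (X * (X - 1) : K[X]).eval x ≠ 0 ↔ (x ≠ 0 ∧ x ≠ 1) := by
    intro x
    simp only [eval_mul, eval_sub, eval_X, eval_one, mul_ne_zero_iff, ne_eq, sub_eq_zero]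
  unfold V ABC
  simp only [hne, natDegree_three, J_three]
  have e : (((2 : ℕ) : ℝ) - 1) = 1 := by norm_num
  simp only [e, one_mul]
  rfl

end Pool.Agent.N746.RK
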