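import Pool.Agent.N746.RK.Neg

/-!
# `∞` and the `n`-th roots of `k`: from and to abc
-/

set_option autoImplicit false

namespace Pool.Agent.N746.RK

open NumberField IsDedekindDomain Height Real Polynomial Pool.Agent.N757.RD Pool.Agent.N757.TL

variable {K : Type} [Field K] [NumberField K]

/-- from abc to `∞` and the `n`-th roots of `k` -/
theorem ABC_to_RT {n : ℕ} (hn : 2 ≤ n) {c : K} (hc : c ≠ 0) (h : ABC K) : RT n c := by
  have hfc := finite_ne_one hc
  have hDc := D_nonneg c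
  set Wc : ℝ := W {p : HeightOneSpectrum (𝓞 K) | FinitePlace.mk p c ≠ 1} with hWc
  have hWc0 : 0 ≤ Wc := W_nonneg _
  have hn0 : (2 : ℝ) ≤ n := by exact_mod_cast hn
  have hn1 : (0 : ℝ) < (n : ℝ) - 1 := by linarith
  refine step (h := fun x : K => ((n : ℝ) - 1) * D x) (r := fun x => W (IR n c x))
    (N := (n : ℝ) / ((n : ℝ) - 1)) (C := Wc + D c)
    (fun x => mul_nonneg hn1.le (D_nonneg x)) (fun x => W_nonneg _)
    (by rw [le_div_iff₀ hn1]; linarith) (by positivity) ?_ h
  rintro x hx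
  by_cases hx0 : x = 0
  · left
    rw [hx0]
    have : D (0 : K) = 0 := logHeight₁_zero
    rw [this, mul_zero]; positivity
  right
  have hxn : x ^ n ≠ 0 := pow_ne_zero n hx0
  have e1 : 1 - c / x ^ n = (x ^ n - c) / x ^ n := by field_simp
  have hxc : x ^ n - c ≠ 0 := sub_ne_zero.2 hx
  have eN : (n : ℝ) / ((n : ℝ) - 1) * (((n : ℝ) - 1) * D x) = n * D x := by
    field_simp
  have eN1 : ((n : ℝ) / ((n : ℝ) - 1) - 1) * (((n : ℝ) - 1) * D x) = D x := by
    field_simp
    ring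
  rw [eN, eN1]
  refine ⟨c / x ^ n, ⟨div_ne_zero hc hxn, ?_⟩, ?_, ?_⟩
  · intro h1
    rw [h1, sub_self] at e1
    exact div_ne_zero hxc hxn e1.symm
  · have h1 : D (x ^ n) ≤ D c + D (c / x ^ n) := by
      have e2 : x ^ n = c * (c / x ^ n)⁻¹ := by field_simp
      have h3 : D (c * (c / x ^ n)⁻¹) ≤ D c + D ((c / x ^ n)⁻¹) := logHeight₁_mul_le _ _
      rw [← e2, D_inv] at h3
      exact h3
    rw [D_pow] at h1
    linarith
  · have hsub : I (c / x ^ n) ⊆ IR n c x ∪ (lows x ∪
        {p : HeightOneSpectrum (𝓞 K) | FinitePlace.mk p c ≠ 1}) := by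
      intro p hp
      by_cases hpc : FinitePlace.mk p c = 1
      swap
      · exact Or.inr (Or.inr hpc)
      by_cases hpI : p ∈ IR n c x
      · exact Or.inl hpI
      right; left
      simp only [IR, Set.mem_ofPred_eq, not_or, not_lt] at hpI
      obtain ⟨h1, h2⟩ := hpI
      by_contra hcon
      have hx1 : FinitePlace.mk p x = 1 := le_antisymm h1 (not_lt.1 hcon)
      have h3 : FinitePlace.mk p (x ^ n - c) = 1 := by
        refine le_antisymm ?_ h2
        have := fin_add_le p (x ^ n) (-c)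
        rwa [← sub_eq_add_neg, map_neg_eq_map, map_pow, hx1, hpc, one_pow, max_self] at this
      rcases hp with h4 | h4
      · rw [map_div₀, map_pow, hpc, hx1] at h4
        norm_num at h4
      · rw [e1, map_div₀, map_pow, h3, hx1] at h4
        norm_num at h4
    have f1 := finite_IR hx
    have f2 := finite_lows hx0
    have h3 := W_mono hsub (f1.union (f2.union hfc))
    have h4 := W_union f1 (f2.union hfc)
    have h5 := W_union f2 hfc
    have h6 := W_lows_le hx0
    change W (I (c / x ^ n)) ≤ _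
    linarith

/-- scaling -/
theorem RT_scale {n : ℕ} (hn : 2 ≤ n) {c z : K} (hz : z ≠ 0) (h : RT n (z ^ n * c)) : RT n c := by
  have hfin := finite_ne_one hz
  have hn0 : (2 : ℝ) ≤ n := by exact_mod_cast hn
  have hn1 : (0 : ℝ) < (n : ℝ) - 1 := by linarith
  have hDz := D_nonneg z
  refine step (h := fun x : K => ((n : ℝ) - 1) * D x) (r := fun x => W (IR n c x)) (N := 1)
    (C := ((n : ℝ) - 1) * D z + W {p : HeightOneSpectrum (𝓞 K) | FinitePlace.mk p z ≠ 1})
    (fun x => mul_nonneg hn1.le (D_nonneg x))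
    (fun x => W_nonneg _) le_rfl (add_nonneg (by positivity) (W_nonneg _)) ?_ h
  rintro x h1
  right
  have h1' : (z * x) ^ n ≠ z ^ n * c := by
    intro h3
    apply h1
    rw [mul_pow] at h3
    exact mul_left_cancel₀ (pow_ne_zero n hz) h3
  refine ⟨z * x, h1', ?_, ?_⟩
  · have e1 : D x ≤ D (z⁻¹) + D (z * x) := by
      conv_lhs => rw [show x = z⁻¹ * (z * x) by field_simp]
      exact logHeight₁_mul_le _ _
    rw [D_inv] at e1
    have h2 := W_nonneg {p : HeightOneSpectrum (𝓞 K) | FinitePlace.mk p z ≠ 1}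
    have h3 : ((n : ℝ) - 1) * D x ≤ ((n : ℝ) - 1) * (D z + D (z * x)) :=
      mul_le_mul_of_nonneg_left e1 hn1.le
    linarith
  · have hsub : IR n (z ^ n * c) (z * x) ⊆
        IR n c x ∪ {p : HeightOneSpectrum (𝓞 K) | FinitePlace.mk p z ≠ 1} := by
      intro p hp
      by_cases hpz : FinitePlace.mk p z = 1
      · left
        rcases hp with h3 | h3
        · left
          rwa [map_mul, hpz, one_mul] at h3
        · right
          have e2 : (z * x) ^ n - z ^ n * c = z ^ n * (x ^ n - c) := by ring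
          rwa [e2, map_mul, map_pow, hpz, one_pow, one_mul] at h3
      · exact Or.inr hpz
    have h3 := W_mono hsub ((finite_IR h1).union hfin)
    have h4 := W_union (finite_IR h1) hfin
    have e : (1 : ℝ) - 1 = 0 := by norm_num
    rw [e, zero_mul, add_zero]
    have h5 : 0 ≤ ((n : ℝ) - 1) * D z := by positivity
    linarith

/-- an integer `k ≠ 1`, congruent to `1` modulo `n` -/
theorem RT_one {n : ℕ} (hn : 2 ≤ n) {k : ℤ} (hk1 : k ≠ 1) (hmod : (n : ℤ) ∣ k - 1)
    (h : RT n ((k : ℤ) : K)) : ABC K := by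
  have hn' : (2 : ℤ) ≤ n := by exact_mod_cast hn
  have hk0 : k ≠ 0 := by
    rintro rfl
    have h1 : (n : ℤ) ∣ 1 := by
      have := (dvd_neg (α := ℤ)).2 hmod
      simpa using this
    have := Int.le_of_dvd (by norm_num) h1
    omega
  have hB := root_to_B hn hk0 h
  obtain ⟨t, ht⟩ := hmod
  rcases lt_or_gt_of_ne hk0 with hneg | hpos
  · have ht0 : t < 0 := by
      by_contra h0
      have : 0 ≤ (n : ℤ) * t := mul_nonneg (by omega) (by omega)
      omega
    obtain ⟨s, hs⟩ : ∃ s : ℕ, t = -(s : ℤ) := ⟨t.natAbs, by omega⟩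
    have hs1 : 1 ≤ s := by omega
    have hks : k = 1 - ((n * s : ℕ) : ℤ) := by
      push_cast
      rw [hs] at ht
      linarith
    rw [hks] at hB
    exact neg_ABC hn hs1 hB
  · have ht0 : 0 < t := by
      by_contra h0
      have : (n : ℤ) * t ≤ 0 := mul_nonpos_of_nonneg_of_nonpos (by omega) (by omega)
      have : k = 1 := by omega
      exact hk1 this
    obtain ⟨s, hs⟩ : ∃ s : ℕ, t = (s : ℤ) := ⟨t.natAbs, by omega⟩
    have hs1 : 1 ≤ s := by omega
    have hks : k = ((n * s : ℕ) : ℤ) + 1 := by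
      push_cast
      rw [hs] at ht
      linarith
    rw [hks] at hB
    exact pos_ABC hn hs1 hB

/-- the congruence condition -/
def Cong (n : ℕ) (m : ℤ) : Prop := (n : ℤ) ∣ m - 1 ∨ (n.Prime ∧ ¬ (n : ℤ) ∣ m)

theorem RT_int {n : ℕ} (hn : 2 ≤ n) {m : ℤ} (hm : m ≠ 0) (hc : Cong n m)
    (h : RT n ((m : ℤ) : K)) : ABC K := by
  have hn' : (2 : ℤ) ≤ n := by exact_mod_cast hn
  have key : ∀ (u : ℤ), u ≠ 0 → (n : ℤ) ∣ m * u ^ n - 1 → m * u ^ n ≠ 1 → ABC K := by
    intro u hu h1 h2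
    refine RT_one hn h2 h1 ?_
    have hu' : ((u : ℤ) : K) ≠ 0 := by exact_mod_cast hu
    refine RT_scale hn (inv_ne_zero hu') ?_
    have e1 : ((u : ℤ) : K)⁻¹ ^ n * ((m * u ^ n : ℤ) : K) = ((m : ℤ) : K) := by
      push_cast
      rw [inv_pow, mul_comm, mul_assoc, mul_inv_cancel₀ (pow_ne_zero n hu'), mul_one]
    rw [e1]
    exact h
  have key2 : ∀ (u : ℤ), u ≠ 0 → (n : ℤ) ∣ m * u ^ n - 1 → ABC K := by
    intro u hu h1
    by_cases h2 : m * u ^ n = 1
    swap
    · exact key u hu h1 h2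
    refine key (u * (n + 1)) (mul_ne_zero hu (by omega)) ?_ ?_
    · have h4 := sub_dvd_pow_sub_pow ((n : ℤ) + 1) 1 n
      rw [one_pow, add_sub_cancel_right] at h4
      have e1 : m * (u * ((n : ℤ) + 1)) ^ n - 1 = (m * u ^ n) * ((n : ℤ) + 1) ^ n - 1 := by
        rw [mul_pow]; ring
      rw [e1, h2, one_mul]
      exact h4
    · have e1 : m * (u * ((n : ℤ) + 1)) ^ n = (m * u ^ n) * ((n : ℤ) + 1) ^ n := by
        rw [mul_pow]; ring
      rw [e1, h2, one_mul]
      have : (1 : ℤ) < ((n : ℤ) + 1) ^ n := one_lt_pow₀ (by omega) (by omega)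
      exact this.ne'
  rcases hc with h1 | ⟨hp, h1⟩
  · refine key2 1 one_ne_zero ?_
    rwa [one_pow, mul_one]
  · have : Fact n.Prime := ⟨hp⟩
    have hnP : Prime (n : ℤ) := Nat.prime_iff_prime_int.1 hp
    obtain ⟨u, v, huv⟩ := (Int.isCoprime_iff_gcd_eq_one.2
      (Int.isCoprime_iff_gcd_eq_one.1 ((Prime.coprime_iff_not_dvd hnP).2 h1).symm) :
        IsCoprime m (n : ℤ))
    refine key2 u ?_ ?_
    · rintro rfl
      have : (n : ℤ) ∣ 1 := ⟨v, by linarith⟩
      exact hnP.not_isUnit (isUnit_of_dvd_one this)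
    · rw [← ZMod.intCast_eq_intCast_iff_dvd_sub]
      push_cast
      rw [ZMod.pow_card]
      have : ((u * m + v * (n : ℤ) : ℤ) : ZMod n) = ((1 : ℤ) : ZMod n) := by rw [huv]
      push_cast at this
      rw [ZMod.natCast_self, mul_zero, add_zero] at this
      rw [mul_comm, this]

/-- **The roots of `k` over a number field.** -/
theorem RT_iff {n : ℕ} (hn : 2 ≤ n) {m : ℤ} (hm : m ≠ 0) (hc : Cong n m) {z : K} (hz : z ≠ 0) :
    RT n (((m : ℤ) : K) * z ^ n) ↔ ABC K := by
  constructor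
  · intro h
    refine RT_int hn hm hc (RT_scale hn hz ?_)
    rwa [mul_comm] at h
  · exact ABC_to_RT hn (mul_ne_zero (by exact_mod_cast hm) (pow_ne_zero _ hz))

end Pool.Agent.N746.RK
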