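import Pool.Agent.N746.RK.Newton
import Pool.Agent.N757.TL.Fin

/-!
# From `0`, `∞` and the `n`-th roots of `n t + 1` to abc
-/

set_option autoImplicit false

namespace Pool.Agent.N746.RK

open NumberField IsDedekindDomain Height Real Polynomial Pool.Agent.N757.RD Pool.Agent.N757.TL

variable {K : Type} [Field K] [NumberField K]

theorem d1 {n : ℕ} : (1 - X ^ n : ℤ[X]).natDegree ≤ n := by
  refine (natDegree_sub_le _ _).trans (max_le ?_ (natDegree_X_pow_le _))
  rw [natDegree_one]; omega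

theorem d2 {n t : ℕ} : ((1 - X ^ n : ℤ[X]) ^ t).natDegree ≤ n * t := by
  rw [mul_comm]; exact natDegree_pow_le.trans (Nat.mul_le_mul_left _ d1)

theorem c2 {n t : ℕ} (hn : 1 ≤ n) : ((1 - X ^ n : ℤ[X]) ^ t).coeff (n * t) = (-1) ^ t := by
  have c1' : (1 - X ^ n : ℤ[X]).coeff n = -1 := by
    rw [coeff_sub, coeff_one, coeff_X_pow, if_neg (by omega), if_pos rfl]; norm_num
  rw [mul_comm n t, coeff_pow_of_natDegree_le d1, c1']

theorem pos_ABC {n t : ℕ} (hn : 2 ≤ n) (ht : 1 ≤ t)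
    (h : BT n ((((n * t : ℕ) : ℤ) + 1 : ℤ) : K)) : ABC K := by
  obtain ⟨e, he⟩ : ∃ e, e = n * t := ⟨_, rfl⟩
  rw [← he] at h
  have he2 : 2 ≤ e := by rw [he]; nlinarith
  obtain ⟨d, hde⟩ : ∃ d : ℤ, d = (e : ℤ) + 1 := ⟨_, rfl⟩
  rw [← hde] at h
  have hd0 : d ≠ 0 := by omega
  have he0 : (e : ℤ) ≠ 0 := by omega
  set F : ℤ[X] := C (d ^ t) * (X * (1 - X ^ n) ^ t) with hF
  set G₀ : ℤ[X] := C ((e : ℤ) ^ t) with hG₀
  have dF : F.natDegree ≤ e + 1 := by
    refine (natDegree_C_mul_le _ _).trans (natDegree_mul_le.trans ?_)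
    rw [natDegree_X, add_comm, he]
    exact Nat.add_le_add_right d2 1
  have cF : F.coeff (e + 1) ≠ 0 := by
    rw [hF, coeff_C_mul, coeff_X_mul, he, c2 (by omega)]
    exact mul_ne_zero (pow_ne_zero _ hd0) (pow_ne_zero _ (by norm_num))
  have hBez : (0 : ℤ[X]) * F + 1 * G₀ = C ((e : ℤ) ^ t) := by rw [zero_mul, one_mul, zero_add]
  obtain ⟨C1, hC1, hge⟩ := D_ratio_ge dF (by omega) cF (pow_ne_zero _ he0) hBez
  obtain ⟨G, hG1, hG2⟩ := dpos (C d * X ^ n) 1 n (natDegree_C_mul_X_pow_le _ _)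
    (by rw [natDegree_one]; omega) e he2
  set V : ℤ[X] := C d * X ^ n - 1 with hV
  have dV : V.natDegree ≤ n := by
    rw [hV]
    refine (natDegree_sub_le _ _).trans (max_le (natDegree_C_mul_X_pow_le _ _) ?_)
    rw [natDegree_one]; omega
  have hd := dg_pos (K := K)
  have hb1 := finite_intCast_ne_one (K := K) he0
  have hb2 := finite_intCast_ne_one (K := K) hd0
  set W1 : ℝ := W {p : HeightOneSpectrum (𝓞 K) | FinitePlace.mk p (((e : ℤ)) : K) ≠ 1} with hW1
  set W2 : ℝ := W {p : HeightOneSpectrum (𝓞 K) | FinitePlace.mk p ((d : ℤ) : K) ≠ 1} with hW2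
  have hW10 : 0 ≤ W1 := W_nonneg _
  have hW20 : 0 ≤ W2 := W_nonneg _
  obtain ⟨L1, hL1⟩ : ∃ L : ℝ, L = Real.log (nrm (geo n)) * dg K := ⟨_, rfl⟩
  obtain ⟨L2, hL2⟩ : ∃ L : ℝ, L = Real.log (nrm V) * dg K := ⟨_, rfl⟩
  obtain ⟨L3, hL3⟩ : ∃ L : ℝ, L = Real.log (nrm G) * dg K := ⟨_, rfl⟩
  have hL10 : 0 ≤ L1 := by rw [hL1]; exact mul_nonneg (log_nrm_nonneg _) hd.le
  have hL20 : 0 ≤ L2 := by rw [hL2]; exact mul_nonneg (log_nrm_nonneg _) hd.le
  have hL30 : 0 ≤ L3 := by rw [hL3]; exact mul_nonneg (log_nrm_nonneg _) hd.le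
  obtain ⟨c, hc⟩ : ∃ c : ℝ, c = C1 * dg K := ⟨_, rfl⟩
  have hc0 : 0 ≤ c := by rw [hc]; positivity
  have hDd := D_nonneg ((d : ℤ) : K)
  have hn0 : (2 : ℝ) ≤ n := by exact_mod_cast hn
  have he0' : (2 : ℝ) ≤ e := by exact_mod_cast he2
  refine step (h := D) (r := R) (h' := fun x : K => (n : ℝ) * D x)
    (r' := fun x => W (JR n ((d : ℤ) : K) x)) (N := n * ((e : ℝ) + 1))
    (C := n * c + c + D ((d : ℤ) : K) + W1 + W2 + L1 + L2 + L3)
    (P := fun y : K => y ≠ 0 ∧ y ≠ 1)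
    (Q := fun x : K => x ≠ 0 ∧ x ^ n ≠ ((d : ℤ) : K))
    D_nonneg R_nonneg (by nlinarith) (by positivity) ?_ h
  rintro w ⟨w0, w1⟩
  by_cases hwn : w ^ n = 1
  · left
    rw [D_eq_zero_of_pow (by omega) hwn]
    positivity
  have h1w : 1 - w ^ n ≠ 0 := sub_ne_zero.2 (Ne.symm hwn)
  have hdK : ((d : ℤ) : K) ≠ 0 := by exact_mod_cast hd0
  have heK : ((e : ℤ) : K) ≠ 0 := by exact_mod_cast he0
  have hFw : aeval w F = ((d : ℤ) : K) ^ t * (w * (1 - w ^ n) ^ t) := by
    rw [hF]; simp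
  have hGw : aeval w G₀ = ((e : ℤ) : K) ^ t := by
    rw [hG₀]; simp
  have hFw0 : aeval w F ≠ 0 := by
    rw [hFw]; exact mul_ne_zero (pow_ne_zero _ hdK) (mul_ne_zero w0 (pow_ne_zero _ h1w))
  have hGw0 : aeval w G₀ ≠ 0 := by
    rw [hGw]; exact pow_ne_zero _ heK
  have hVw : aeval w V = ((d : ℤ) : K) * w ^ n - 1 := by
    rw [hV]; simp
  have hgex := hge K w hGw0
  rw [← inv_div, D_inv, ← hc] at hgex
  push_cast at hgex
  set x : K := aeval w G₀ / aeval w F with hx
  have hDw := D_nonneg w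
  by_cases hxk : x ^ n = ((d : ℤ) : K)
  · left
    have h1 := root_D_le (by omega) hxk
    have h2 : D w ≤ ((e : ℝ) + 1) * D w := by nlinarith
    have h3 : 0 ≤ (n : ℝ) * c := by positivity
    linarith
  right
  have hid : x ^ n - ((d : ℤ) : K) = (aeval w V) ^ 2 * aeval w G / (aeval w F) ^ n := by
    have h1 := congrArg (aeval w) hG1
    simp only [eq_intCast, map_intCast, map_sub, map_mul, map_pow, map_add, aeval_X, map_natCast,
      map_one, one_pow, mul_one] at h1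
    rw [eq_div_iff (pow_ne_zero _ hFw0), hx, sub_mul, div_pow, div_mul_cancel₀ _ (pow_ne_zero _ hFw0)]
    have e0 : t * n = e := by rw [he, mul_comm]
    have e1 : (aeval w G₀) ^ n = (e : K) ^ e := by
      rw [hGw, ← pow_mul, e0, Int.cast_natCast]
    have e2 : (aeval w F) ^ n = (d : K) ^ e * (w ^ n * (1 - w ^ n) ^ e) := by
      rw [hFw, mul_pow, mul_pow, ← pow_mul, ← pow_mul, e0]
    have e3 : (e : K) + 1 - (d : K) * w ^ n = (d : K) * (1 - w ^ n) := by
      rw [hde]; push_cast; ring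
    rw [e3, mul_pow] at h1
    rw [e1, e2, ← h1]
    ring
  have hVV : aeval w V ≠ 0 := by
    intro h0
    rw [h0, zero_pow (by norm_num), zero_mul, zero_div] at hid
    exact hxk (sub_eq_zero.1 hid)
  have hGG : aeval w G ≠ 0 := by
    intro h0
    rw [h0, mul_zero, zero_div] at hid
    exact hxk (sub_eq_zero.1 hid)
  have hgg : aeval w (geo n) ≠ 0 := by
    intro h0
    have := aeval_geo n w
    rw [h0, mul_zero] at this
    exact h1w this.symm
  refine ⟨x, ⟨div_ne_zero hGw0 hFw0, hxk⟩, ?_, ?_⟩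
  · have h1 : (n : ℝ) * (((e : ℝ) + 1) * D w) ≤ n * (D x + c) :=
      mul_le_mul_of_nonneg_left hgex (by positivity)
    linarith
  · have hsub : JR n ((d : ℤ) : K) x ⊆ I w ∪ (lows (aeval w (geo n)) ∪ (lows (aeval w V) ∪
        (lows (aeval w G) ∪ ({p : HeightOneSpectrum (𝓞 K) | FinitePlace.mk p (((e : ℤ)) : K) ≠ 1} ∪
          {p : HeightOneSpectrum (𝓞 K) | FinitePlace.mk p ((d : ℤ) : K) ≠ 1})))) := by
      intro p hp
      by_cases hpe : FinitePlace.mk p (((e : ℤ)) : K) = 1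
      swap
      · exact Or.inr (Or.inr (Or.inr (Or.inr (Or.inl hpe))))
      by_cases hpd : FinitePlace.mk p ((d : ℤ) : K) = 1
      swap
      · exact Or.inr (Or.inr (Or.inr (Or.inr (Or.inr hpd))))
      by_cases hpI : p ∈ I w
      · exact Or.inl hpI
      by_cases hp1 : p ∈ lows (aeval w (geo n))
      · exact Or.inr (Or.inl hp1)
      by_cases hp2 : p ∈ lows (aeval w V)
      · exact Or.inr (Or.inr (Or.inl hp2))
      by_cases hp3 : p ∈ lows (aeval w G)
      · exact Or.inr (Or.inr (Or.inr (Or.inl hp3)))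
      exfalso
      simp only [I, Set.mem_ofPred_eq, not_or, not_not] at hpI
      obtain ⟨h2, h3⟩ := hpI
      have hint : ∀ P : ℤ[X], FinitePlace.mk p (aeval w P) ≤ 1 := by
        intro P
        have := fin_aeval_le p w P
        rwa [h2, max_self, one_pow] at this
      have h4 : FinitePlace.mk p (aeval w (geo n)) = 1 := le_antisymm (hint _) (not_lt.1 hp1)
      have h5 : FinitePlace.mk p (1 - w ^ n) = 1 := by
        rw [← aeval_geo, map_mul, h3, h4, one_mul]
      have h6 : FinitePlace.mk p (aeval w F) = 1 := by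
        rw [hFw, map_mul, map_pow, map_mul, map_pow, hpd, h2, h5]
        simp
      have h7 : FinitePlace.mk p (aeval w G₀) = 1 := by
        rw [hGw, map_pow, hpe, one_pow]
      rcases hp with h8 | h8
      · apply h8
        rw [hx, map_div₀, h6, h7, div_one]
      · rw [hid, map_div₀, map_pow, h6, one_pow, div_one, map_mul, map_pow] at h8
        have h9 : 1 ≤ FinitePlace.mk p (aeval w V) ^ 2 := one_le_pow₀ (not_lt.1 hp2)
        have h10 : 1 ≤ FinitePlace.mk p (aeval w G) := not_lt.1 hp3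
        have := one_le_mul_of_one_le_of_one_le h9 h10
        linarith
    have f1 := finite_I w0 w1
    have f2 := finite_lows hgg
    have f3 := finite_lows hVV
    have f4 := finite_lows hGG
    have g1 := W_mono hsub (f1.union (f2.union (f3.union (f4.union (hb1.union hb2)))))
    have g2 := W_union f1 (f2.union (f3.union (f4.union (hb1.union hb2))))
    have g3 := W_union f2 (f3.union (f4.union (hb1.union hb2)))
    have g4 := W_union f3 (f4.union (hb1.union hb2))
    have g5 := W_union f4 (hb1.union hb2)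
    have g6 := W_union hb1 hb2
    have k1 := W_lows_le hgg
    have k2 := W_lows_le hVV
    have k3 := W_lows_le hGG
    have l1 := D_aeval_le w (geo n)
    have l2 := D_aeval_le w V
    have l3 := D_aeval_le w G
    rw [← hL1] at l1
    rw [← hL2] at l2
    rw [← hL3] at l3
    have m1 : ((geo n).natDegree : ℝ) * D w ≤ ((n : ℝ) - 1) * D w := by
      refine mul_le_mul_of_nonneg_right ?_ hDw
      have := natDegree_geo n
      have e1 : ((n - 1 : ℕ) : ℝ) = (n : ℝ) - 1 := by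
        rw [Nat.cast_sub (by omega)]; norm_num
      rw [← e1]
      exact_mod_cast this
    have m2 : (V.natDegree : ℝ) * D w ≤ (n : ℝ) * D w :=
      mul_le_mul_of_nonneg_right (by exact_mod_cast dV) hDw
    have m3 : (G.natDegree : ℝ) * D w ≤ (((e : ℝ) - 1) * n) * D w := by
      refine mul_le_mul_of_nonneg_right ?_ hDw
      have e1 : ((e - 1 : ℕ) : ℝ) = (e : ℝ) - 1 := by
        rw [Nat.cast_sub (by omega)]; norm_num
      rw [← e1]
      exact_mod_cast hG2
    have e7 : R w = W (I w) := rfl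
    have e8 : ((n : ℝ) * ((e : ℝ) + 1) - 1) * D w =
      ((n : ℝ) - 1) * D w + (n : ℝ) * D w + (((e : ℝ) - 1) * n) * D w := by ring
    have e9 : 0 ≤ (n : ℝ) * c := by positivity
    rw [e7, e8]
    linarith

end Pool.Agent.N746.RK
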